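import Pool.Agent.Lib.MP_ba0fa5_ag.AA.IfaceA

/-!
# RECG: partial summation with general weights
-/

set_option autoImplicit false

namespace Pool.Agent.Lib.MP_ba0fa5_ag.AA.H15

open Finset Pool.Agent.Lib.MP_ba0fa5_ag
open scoped Classical

theorem primesIn_self (W : ℕ) : primesIn W W = ∅ := by
  unfold primesIn
  simp

theorem primesIn_succ (W z : ℕ) (hWz : W ≤ z) (f : ℕ → ℝ) :
    ∑ l ∈ primesIn W (z + 1), f l =
      ∑ l ∈ primesIn W z, f l + if (z + 1).Prime then f (z + 1) else 0 := by
  unfold primesIn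
  have h : Ioc W (z + 1) = insert (z + 1) (Ioc W z) := by
    ext i
    simp only [mem_insert, mem_Ioc]
    omega
  rw [h, Finset.filter_insert]
  split_ifs with hp
  · rw [Finset.sum_insert]
    · ring
    · rw [mem_filter, mem_Ioc]
      omega
  · simp

/-- **RECG** -/
theorem recg : RecgStmt := by
  intro α κ C₀ hα hκ hC0 hC W y hW hWy
  obtain ⟨M, hM⟩ : ∃ M : ℕ → ℝ, M = fun y =>
    ∑ l ∈ primesIn 0 y, α l * Real.log l / l := ⟨_, rfl⟩
  obtain ⟨S, hS⟩ : ∃ S : ℕ → ℝ, S = fun y => ∑ l ∈ primesIn W y, α l / l := ⟨_, rfl⟩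
  have hC' : ∀ y : ℕ, 1 ≤ y → |M y - κ * Real.log y| ≤ C₀ := by
    intro y hy
    rw [hM]
    exact hC y hy
  have hstep : ∀ z : ℕ, W ≤ z →
      S (z + 1) = S z + (M (z + 1) - M z) / Real.log ((z + 1 : ℕ) : ℝ) := by
    intro z hz
    have hu : Real.log ((z + 1 : ℕ) : ℝ) ≠ 0 := by
      have : (1 : ℝ) < ((z + 1 : ℕ) : ℝ) := by
        have h2 : (2 : ℝ) ≤ z := by exact_mod_cast hW.trans hz
        push_cast
        linarith
      exact (Real.log_pos this).ne'
    rw [hM, hS]
    simp only
    rw [primesIn_succ W z hz, primesIn_succ 0 z (Nat.zero_le _)]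
    split_ifs with h
    · have hz0 : ((z + 1 : ℕ) : ℝ) ≠ 0 := by positivity
      field_simp
      ring
    · simp
  -- the potential
  obtain ⟨Φ, hΦ⟩ : ∃ Φ : ℕ → ℝ, Φ = fun z =>
    S z - (M z - κ * Real.log z) / Real.log z - κ * Real.log (Real.log z) := ⟨_, rfl⟩
  have hW2 : (2 : ℝ) ≤ W := by exact_mod_cast hW
  have hlW : 0 < Real.log W := Real.log_pos (by linarith)
  have hpot : ∀ z : ℕ, W ≤ z → |Φ z - Φ W| ≤ (C₀ + κ) * (1 / Real.log W - 1 / Real.log z) := by
    intro z hz
    induction z, hz using Nat.le_induction with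
    | base => simp
    | succ z hz ih =>
      obtain ⟨v, hv⟩ : ∃ v, v = Real.log (z : ℝ) := ⟨_, rfl⟩
      obtain ⟨u, hu⟩ : ∃ u, u = Real.log ((z + 1 : ℕ) : ℝ) := ⟨_, rfl⟩
      have hz2 : (2 : ℝ) ≤ z := by exact_mod_cast hW.trans hz
      have hv0 : 0 < v := by rw [hv]; exact Real.log_pos (by linarith)
      have huv : v ≤ u := by
        rw [hv, hu]; exact Real.log_le_log (by linarith) (by push_cast; linarith)
      have hu0 : 0 < u := lt_of_lt_of_le hv0 huv
      have huv1 : u - v ≤ 1 := by
        rw [hu, hv, ← Real.log_div (by positivity) (by positivity)]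
        have h1 : Real.log (((z + 1 : ℕ) : ℝ) / z) ≤ ((z + 1 : ℕ) : ℝ) / z - 1 :=
          Real.log_le_sub_one_of_pos (by positivity)
        have h2 : ((z + 1 : ℕ) : ℝ) / z - 1 ≤ 1 := by
          rw [sub_le_iff_le_add, div_le_iff₀ (by linarith)]
          push_cast; linarith
        linarith
      have hlog1 : Real.log u - Real.log v ≤ (u - v) / v := by
        rw [← Real.log_div hu0.ne' hv0.ne']
        have h1 : Real.log (u / v) ≤ u / v - 1 := Real.log_le_sub_one_of_pos (by positivity)
        have h2 : u / v - 1 = (u - v) / v := by field_simp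
        linarith
      have hlog2 : (u - v) / u ≤ Real.log u - Real.log v := by
        have h1 : Real.log (v / u) ≤ v / u - 1 := Real.log_le_sub_one_of_pos (by positivity)
        rw [Real.log_div hv0.ne' hu0.ne'] at h1
        have h2 : v / u - 1 = - ((u - v) / u) := by field_simp; ring
        linarith
      have hgap : 0 ≤ 1 / v - 1 / u := by
        rw [sub_nonneg]; exact one_div_le_one_div_of_le hv0 huv
      have hE := hC' z (by omega)
      rw [← hv] at hE
      have h2 : (u - v) / v - (u - v) / u ≤ 1 / v - 1 / u := by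
        have h3 : (u - v) / v - (u - v) / u = (u - v) * (1 / v - 1 / u) := by ring
        rw [h3]
        calc (u - v) * (1 / v - 1 / u) ≤ 1 * (1 / v - 1 / u) := mul_le_mul_of_nonneg_right huv1 hgap
          _ = _ := one_mul _
      have hdiff : Φ (z + 1) - Φ z = (M z - κ * v) * (1 / v - 1 / u) -
          κ * (Real.log u - Real.log v - (u - v) / u) := by
        rw [hΦ]
        simp only
        rw [hstep z hz, ← hu, ← hv]
        field_simp
        ring
      have h4 : |Φ (z + 1) - Φ z| ≤ (C₀ + κ) * (1 / v - 1 / u) := by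
        rw [hdiff]
        refine (abs_sub _ _).trans ?_
        rw [abs_mul, abs_mul, abs_of_nonneg hgap, abs_of_nonneg hκ]
        have h5 : |Real.log u - Real.log v - (u - v) / u| ≤ 1 / v - 1 / u := by
          rw [abs_of_nonneg (by linarith)]
          linarith
        have h6 := mul_le_mul_of_nonneg_right hE hgap
        have h7 := mul_le_mul_of_nonneg_left h5 hκ
        linarith
      have h5 : |Φ (z + 1) - Φ W| ≤ |Φ (z + 1) - Φ z| + |Φ z - Φ W| := by
        have : Φ (z + 1) - Φ W = (Φ (z + 1) - Φ z) + (Φ z - Φ W) := by ring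
        rw [this]
        exact abs_add_le _ _
      rw [← hv] at ih
      rw [← hu]
      have h6 : (C₀ + κ) * (1 / Real.log W - 1 / u) =
          (C₀ + κ) * (1 / v - 1 / u) + (C₀ + κ) * (1 / Real.log W - 1 / v) := by ring
      rw [h6]
      linarith
  have hWy' : (W : ℝ) ≤ y := by exact_mod_cast hWy
  have hly : Real.log W ≤ Real.log y := Real.log_le_log (by linarith) hWy'
  have hly0 : 0 < Real.log y := lt_of_lt_of_le hlW hly
  have h1 := hpot y hWy
  have h2 : 1 / Real.log y ≤ 1 / Real.log W := one_div_le_one_div_of_le hlW hly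
  have hb : ∀ z : ℕ, W ≤ z → |(M z - κ * Real.log z) / Real.log z| ≤ C₀ * (1 / Real.log W) := by
    intro z hz
    have hz' : (W : ℝ) ≤ z := by exact_mod_cast hz
    have hlz : Real.log W ≤ Real.log z := Real.log_le_log (by linarith) hz'
    have hlz0 : 0 < Real.log z := lt_of_lt_of_le hlW hlz
    rw [abs_div, abs_of_pos hlz0, div_eq_mul_one_div]
    exact mul_le_mul (hC' z (by omega)) (one_div_le_one_div_of_le hlW hlz) (by positivity) hC0
  have h4 := hb y hWy
  have h4' := hb W le_rfl
  have h5 : (C₀ + κ) * (1 / Real.log W - 1 / Real.log y) ≤ (C₀ + κ) * (1 / Real.log W) := by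
    apply mul_le_mul_of_nonneg_left _ (by positivity)
    have : 0 < 1 / Real.log y := by positivity
    linarith
  have hSW : S W = 0 := by
    rw [hS]
    simp only
    rw [primesIn_self, sum_empty]
  have e : ∑ l ∈ primesIn W y, α l / l - κ * Real.log (Real.log y / Real.log W) =
      (Φ y - Φ W) + (M y - κ * Real.log y) / Real.log y
        - (M W - κ * Real.log W) / Real.log W := by
    rw [Real.log_div hly0.ne' hlW.ne']
    have h7 : Φ y = S y - (M y - κ * Real.log y) / Real.log y - κ * Real.log (Real.log y) := by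
      rw [hΦ]
    have h8 : Φ W = S W - (M W - κ * Real.log W) / Real.log W - κ * Real.log (Real.log W) := by
      rw [hΦ]
    have h9 : ∑ l ∈ primesIn W y, α l / l = S y := by rw [hS]
    rw [h7, h8, h9, hSW]
    ring
  rw [e]
  refine (abs_sub _ _).trans ?_
  have h6 := abs_add_le (Φ y - Φ W) ((M y - κ * Real.log y) / Real.log y)
  have h10 : (4 * C₀ + 4 * κ) / Real.log W = (4 * C₀ + 4 * κ) * (1 / Real.log W) := by
    rw [div_eq_mul_one_div]
  have h11 : 0 < 1 / Real.log W := by positivity
  have h12 : 0 ≤ C₀ * (1 / Real.log W) := by positivity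
  have h13 : 0 ≤ κ * (1 / Real.log W) := by positivity
  rw [h10]
  linarith

end Pool.Agent.Lib.MP_ba0fa5_ag.AA.H15
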