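import Pool.Agent.Lib.MP_ba0fa5_ag.AA.IfaceA
import Pool.Agent.Lib.MP_ba0fa5_ag.H72.Nmert1
import Pool.Agent.Lib.MP_ba0fa5_ag.H72.Nup

/-!
# VBND, ROUGHSUM: the product of `1 - 1/l`, sums over rough numbers
-/

set_option autoImplicit false

namespace Pool.Agent.Lib.MP_ba0fa5_ag.AA.H15

open Finset Pool.Agent.Lib.MP_ba0fa5_ag
open scoped Classical

/-- Mertens' second theorem on intervals -/
theorem mert2 (hR : RecgStmt) : ∃ K : ℝ, 0 ≤ K ∧ ∀ W z : ℕ, 3 ≤ W → W ≤ z →
    |∑ l ∈ primesIn W z, (1 : ℝ) / l - Real.log (Real.log z / Real.log W)| ≤ K := by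
  obtain ⟨C, hC⟩ := H72.nmert1
  have hC0 : 0 ≤ C := (abs_nonneg _).trans (hC 1 le_rfl)
  refine ⟨4 * C + 4, by positivity, fun W z hW hz => ?_⟩
  have h := hR (fun _ => 1) 1 C (fun _ => ⟨zero_le_one, le_rfl⟩) zero_le_one hC0 ?_ W z
    (by omega) hz
  · have hW3 : (3 : ℝ) ≤ W := by exact_mod_cast hW
    have h1 : 1 ≤ Real.log W := by
      rw [Real.le_log_iff_exp_le (by linarith)]
      exact (lt_trans Real.exp_one_lt_d9 (by norm_num : (2.7182818286 : ℝ) < 3)).le.trans hW3
    rw [one_mul] at h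
    refine h.trans ?_
    rw [div_le_iff₀ (by linarith)]
    nlinarith
  · intro y hy
    have h1 := hC y hy
    have e : primesIn 0 y = (Icc 1 y).filter Nat.Prime := by
      unfold primesIn
      congr 1
    rw [e]
    simpa using h1

/-- **VBND** -/
theorem vbnd (hR : RecgStmt) : VbndStmt := by
  obtain ⟨K, hK, h⟩ := mert2 hR
  refine ⟨Real.exp (-(K + 1)), Real.exp K, Real.exp_pos _, Real.exp_pos _, fun W z hW hz => ?_⟩
  have hW3 : (3 : ℝ) ≤ W := by exact_mod_cast hW
  have hz3 : (3 : ℝ) ≤ z := by exact_mod_cast hW.trans hz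
  have hlW : 0 < Real.log W := Real.log_pos (by linarith)
  have hlz : 0 < Real.log z := Real.log_pos (by linarith)
  have hq : 0 < Real.log z / Real.log W := by positivity
  have h1 := abs_le.1 (h W z hW hz)
  have hprime : ∀ l ∈ primesIn W z, 2 ≤ l := by
    intro l hl
    exact (mem_filter.1 hl).2.two_le
  have hpos : ∀ l ∈ primesIn W z, (0 : ℝ) < 1 - 1 / (l : ℝ) := by
    intro l hl
    have h2 : (2 : ℝ) ≤ l := by exact_mod_cast hprime l hl
    rw [sub_pos, div_lt_one (by linarith)]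
    linarith
  constructor
  · -- lower bound
    have h2 := H72.prod_le_exp (primesIn W z) hprime
    rw [Finset.prod_inv_distrib] at h2
    have hV : 0 < VV W z := prod_pos hpos
    have h3 : (VV W z)⁻¹ ≤ Real.exp (∑ l ∈ primesIn W z, (1 : ℝ) / l + 1) := h2
    have h4 : Real.exp (-(∑ l ∈ primesIn W z, (1 : ℝ) / l + 1)) ≤ VV W z := by
      rw [Real.exp_neg]
      rw [inv_le_comm₀ (Real.exp_pos _) hV]
      exact h3
    refine le_trans ?_ h4
    have h5 : Real.exp (-(K + 1)) * Real.log W / Real.log z =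
        Real.exp (-(K + 1) - Real.log (Real.log z / Real.log W)) := by
      rw [Real.exp_sub, Real.exp_log hq]
      field_simp
    rw [h5]
    apply Real.exp_le_exp.2
    linarith [h1.2]
  · -- upper bound
    have h2 : VV W z ≤ ∏ l ∈ primesIn W z, Real.exp (-(1 / (l : ℝ))) := by
      apply prod_le_prod
      · intro l hl
        exact (hpos l hl).le
      · intro l _
        have := Real.add_one_le_exp (-(1 / (l : ℝ)))
        linarith
    rw [← Real.exp_sum, sum_neg_distrib] at h2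
    refine h2.trans ?_
    have h5 : Real.exp K * Real.log W / Real.log z =
        Real.exp (K - Real.log (Real.log z / Real.log W)) := by
      rw [Real.exp_sub, Real.exp_log hq]
      field_simp
    rw [h5]
    apply Real.exp_le_exp.2
    linarith [h1.1]

/-- **ROUGHSUM** -/
theorem roughsum (hV : VbndStmt) : RoughsumStmt := by
  obtain ⟨c, C, hc, hC, h⟩ := hV
  refine ⟨1 / c, by positivity, fun z A hz hA => ?_⟩
  have hz3 : (3 : ℝ) ≤ z := by exact_mod_cast hz
  have hlz : 0 < Real.log z := Real.log_pos (by linarith)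
  have hzA : z ≤ z ^ A := Nat.le_self_pow (by omega) z
  have h1 := (h z (z ^ A) hz hzA).1
  have hA0 : (0 : ℝ) < A := by exact_mod_cast hA
  have hlog : Real.log ((z ^ A : ℕ) : ℝ) = A * Real.log z := by
    push_cast
    rw [Real.log_pow]
  rw [hlog] at h1
  have h2 : c * Real.log z / (A * Real.log z) = c / A := by
    field_simp
  rw [h2] at h1
  refine (H72.sum_le_prod (primesIn z (z ^ A)) _ ?_ ?_).trans ?_
  · intro l hl
    exact (mem_filter.1 hl).2
  · intro n hn
    rw [mem_filter, mem_Icc] at hn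
    refine ⟨by omega, fun l hl hln => ?_⟩
    rw [primesIn, mem_filter, mem_Ioc]
    exact ⟨⟨hn.2 l hl hln, (Nat.le_of_dvd hn.1.1 hln).trans hn.1.2⟩, hl⟩
  · rw [Finset.prod_inv_distrib]
    change (VV z (z ^ A))⁻¹ ≤ _
    have h3 : 0 < c / A := by positivity
    calc (VV z (z ^ A))⁻¹ ≤ (c / A)⁻¹ := inv_anti₀ h3 h1
      _ = 1 / c * A := by
        rw [inv_div]
        ring

end Pool.Agent.Lib.MP_ba0fa5_ag.AA.H15
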