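import Pool.Agent.Lib.MP_ba0fa5_ag.AA.IfaceA

/-!
# UPW: upper bound for the sum of `fw` over rough numbers
-/

set_option autoImplicit false

namespace Pool.Agent.Lib.MP_ba0fa5_ag.AA.H15

open Finset Pool.Agent.Lib.MP_ba0fa5_ag
open scoped Classical

/-- completely multiplicative function with prescribed values at the primes -/
noncomputable def cmul (h : ℕ → ℝ) : ℕ →* ℝ where
  toFun n := if n = 0 then 0 else n.factorization.prod (fun l k => h l ^ k)
  map_one' := by simp
  map_mul' a b := by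
    by_cases ha : a = 0
    · simp [ha]
    by_cases hb : b = 0
    · simp [hb]
    rw [if_neg (mul_ne_zero ha hb), if_neg ha, if_neg hb, Nat.factorization_mul ha hb]
    exact Finsupp.prod_add_index' (fun _ => pow_zero _) (fun _ _ _ => pow_add _ _ _)

theorem cmul_apply (h : ℕ → ℝ) (n : ℕ) (hn : n ≠ 0) :
    cmul h n = ∏ l ∈ n.primeFactors, h l ^ n.factorization l := by
  change (if n = 0 then 0 else n.factorization.prod (fun l k => h l ^ k)) = _
  rw [if_neg hn]
  rfl

theorem cmul_prime (h : ℕ → ℝ) (p : ℕ) (hp : p.Prime) : cmul h p = h p := by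
  rw [cmul_apply h p hp.ne_zero, hp.primeFactors, prod_singleton, hp.factorization_self, pow_one]

theorem cmul_nonneg (h : ℕ → ℝ) (hh : ∀ l, 0 ≤ h l) (n : ℕ) : 0 ≤ cmul h n := by
  rcases Nat.eq_zero_or_pos n with rfl | hn
  · have h0 : cmul h 0 = 0 := by
      change (if (0 : ℕ) = 0 then (0 : ℝ)
        else (0 : ℕ).factorization.prod (fun l k => h l ^ k)) = 0
      simp
    rw [h0]
  · rw [cmul_apply h n hn.ne']
    exact prod_nonneg fun l _ => pow_nonneg (hh l) _

/-- Euler product, finite inequality -/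
theorem sum_cmul_le (h : ℕ → ℝ) (hh : ∀ l, 0 ≤ h l) (h1 : ∀ l : ℕ, l.Prime → h l < 1)
    (s A : Finset ℕ) (hs : ∀ l ∈ s, l.Prime)
    (hA : ∀ n ∈ A, n ≠ 0 ∧ ∀ l : ℕ, l.Prime → l ∣ n → l ∈ s) :
    ∑ n ∈ A, cmul h n ≤ ∏ l ∈ s, (1 - h l)⁻¹ := by
  have hE := EulerProduct.summable_and_hasSum_factoredNumbers_prod_filter_prime_geometric
    (f := cmul h) (fun {p} hp => by
      rw [cmul_prime h p hp, Real.norm_of_nonneg (hh p)]
      exact h1 p hp) s
  have hfilter : s.filter (fun p => p.Prime) = s := Finset.filter_true_of_mem hs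
  have h2 := hE.2
  rw [hfilter] at h2
  have h2' : ∏ l ∈ s, (1 - cmul h l)⁻¹ = ∏ l ∈ s, (1 - h l)⁻¹ :=
    prod_congr rfl fun l hl => by rw [cmul_prime h l (hs l hl)]
  rw [h2'] at h2
  let g : {n // n ∈ A} → Nat.factoredNumbers s := fun n =>
    ⟨n.1, Nat.mem_factoredNumbers'.mpr (hA n.1 n.2).2⟩
  have hg : Function.Injective g := by
    intro a b hab
    exact Subtype.ext (congrArg (fun z : Nat.factoredNumbers s => (z : ℕ)) hab)
  have h3 := sum_le_hasSum (A.attach.map ⟨g, hg⟩) (fun i _ => cmul_nonneg h hh _) h2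
  rw [Finset.sum_map] at h3
  rw [← Finset.sum_attach]
  exact h3

theorem dl_nonneg (l : ℕ) : 0 ≤ dl l := by
  unfold dl
  split_ifs <;> norm_num

theorem dl_le (l : ℕ) : dl l ≤ 1 / 2 := by
  unfold dl
  split_ifs <;> norm_num

/-- `fw` is at most the completely multiplicative function with the values `dl l / (l - 1)` -/
theorem fw_le_cmul (n : ℕ) (hn : n ≠ 0) :
    fw n ≤ cmul (fun l => dl l / ((l : ℝ) - 1)) n := by
  unfold fw ws
  rw [cmul_apply _ n hn, Nat.totient_eq_prod_factorization hn]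
  change _ / ((∏ l ∈ n.primeFactors, l ^ (n.factorization l - 1) * (l - 1) : ℕ) : ℝ) ≤ _
  rw [Nat.cast_prod, ← Finset.prod_div_distrib]
  apply prod_le_prod
  · intro l _
    have := dl_nonneg l
    positivity
  · intro l hl
    have hp : l.Prime := Nat.prime_of_mem_primeFactors hl
    have hv : 1 ≤ n.factorization l :=
      (hp.factorization_pos_of_dvd hn (Nat.dvd_of_mem_primeFactors hl))
    obtain ⟨k, hk⟩ : ∃ k, n.factorization l = k + 1 := ⟨n.factorization l - 1, by omega⟩
    rw [hk, Nat.add_sub_cancel, div_pow]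
    have h2 : (2 : ℝ) ≤ l := by exact_mod_cast hp.two_le
    have hc : ((l ^ k * (l - 1) : ℕ) : ℝ) = (l : ℝ) ^ k * ((l : ℝ) - 1) := by
      push_cast [Nat.cast_sub hp.one_lt.le]
      ring
    rw [hc]
    have h3 : (0 : ℝ) < (l : ℝ) - 1 := by linarith
    apply div_le_div_of_nonneg_left (pow_nonneg (dl_nonneg l) _) (by positivity)
    rw [pow_succ]
    apply mul_le_mul_of_nonneg_right _ h3.le
    exact pow_le_pow_left₀ h3.le (by linarith) k

theorem sum_tel (s : Finset ℕ) (hs : ∀ l ∈ s, 2 ≤ l) :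
    ∑ l ∈ s, (1 : ℝ) / (l * (l - 1)) ≤ 1 := by
  obtain ⟨N, hN⟩ : ∃ N : ℕ, s ⊆ Icc 2 (N + 1) := by
    refine ⟨s.sup id, fun l hl => ?_⟩
    rw [Finset.mem_Icc]
    have := Finset.le_sup (f := id) hl
    simp only [id] at this
    exact ⟨hs l hl, by omega⟩
  have h2 : ∀ N : ℕ, ∑ l ∈ Icc 2 (N + 1), (1 : ℝ) / (l * (l - 1)) ≤ 1 - 1 / ((N : ℝ) + 1) := by
    intro N
    induction N with
    | zero => simp
    | succ N ih =>
      have h3 : Icc 2 (N + 1 + 1) = insert (N + 2) (Icc 2 (N + 1)) := by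
        ext i
        simp only [mem_insert, mem_Icc]
        omega
      rw [h3, Finset.sum_insert (by simp)]
      push_cast
      have h4 : (1 : ℝ) / (((N : ℝ) + 2) * ((N : ℝ) + 2 - 1)) =
          1 / ((N : ℝ) + 1) - 1 / ((N : ℝ) + 1 + 1) := by
        have h5 : (N : ℝ) + 1 ≠ 0 := by positivity
        have h6 : (N : ℝ) + 2 ≠ 0 := by positivity
        have h7 : (N : ℝ) + 2 - 1 = N + 1 := by ring
        have h8 : (N : ℝ) + 1 + 1 = N + 2 := by ring
        rw [h7, h8]
        field_simp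
        ring
      rw [h4]
      linarith
  calc ∑ l ∈ s, (1 : ℝ) / (l * (l - 1)) ≤ ∑ l ∈ Icc 2 (N + 1), (1 : ℝ) / (l * (l - 1)) := by
        apply Finset.sum_le_sum_of_subset_of_nonneg hN
        intro l hl _
        rw [Finset.mem_Icc] at hl
        have h5 : (2 : ℝ) ≤ l := by exact_mod_cast hl.1
        have h6 : (0 : ℝ) ≤ (l : ℝ) - 1 := by linarith
        positivity
    _ ≤ 1 - 1 / ((N : ℝ) + 1) := h2 N
    _ ≤ 1 := by
        have : (0 : ℝ) ≤ 1 / ((N : ℝ) + 1) := by positivity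
        linarith

theorem factor_le (l : ℕ) (hl : 2 ≤ l) :
    (1 - dl l / ((l : ℝ) - 1))⁻¹ ≤
      Real.exp (dl l / l + 3 / 2 * (1 / ((l : ℝ) * (l - 1)))) := by
  have h0 := dl_nonneg l
  have h1 := dl_le l
  generalize dl l = d at h0 h1
  have h2 : (2 : ℝ) ≤ l := by exact_mod_cast hl
  generalize (l : ℝ) = x at h2
  have hx1 : 0 < x - 1 := by linarith
  have hx2 : 0 < x - 1 - d := by linarith
  have hx0 : 0 < x := by linarith
  have e : (1 - d / (x - 1))⁻¹ = d / (x - 1 - d) + 1 := by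
    have h3 : 1 - d / (x - 1) = (x - 1 - d) / (x - 1) := by
      field_simp
    rw [h3, inv_div]
    field_simp
    ring
  rw [e]
  refine le_trans (Real.add_one_le_exp _) (Real.exp_le_exp.2 ?_)
  have e2 : d / (x - 1 - d) = d / x + d * (1 + d) / (x * (x - 1 - d)) := by
    field_simp
    ring
  rw [e2]
  have h4 : d * (1 + d) / (x * (x - 1 - d)) ≤ 3 / 2 * (1 / (x * (x - 1))) := by
    rw [mul_one_div, div_le_div_iff₀ (by positivity) (by positivity)]
    have h5 : d * (1 + d) ≤ 3 / 4 := by nlinarith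
    have h6 : (x - 1) / 2 ≤ x - 1 - d := by linarith
    have h7 : 0 ≤ d * (1 + d) := by positivity
    calc d * (1 + d) * (x * (x - 1)) ≤ 3 / 4 * (x * (x - 1)) :=
          mul_le_mul_of_nonneg_right h5 (by positivity)
      _ = 3 / 2 * (x * ((x - 1) / 2)) := by ring
      _ ≤ 3 / 2 * (x * (x - 1 - d)) := by
          apply mul_le_mul_of_nonneg_left _ (by norm_num)
          exact mul_le_mul_of_nonneg_left h6 hx0.le
  linarith

/-- **UPW** -/
theorem upw (hW' : WmertStmt) (hR : RecgStmt) : UpwStmt := by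
  obtain ⟨C₀, hC₀⟩ := hW'
  have hC0 : 0 ≤ C₀ := (abs_nonneg _).trans (hC₀ 1 le_rfl)
  refine ⟨Real.exp (4 * C₀ + 4 * (5 / 16) + 3 / 2), Real.exp_pos _, fun W y hW hWy => ?_⟩
  have hW3 : (3 : ℝ) ≤ W := by exact_mod_cast hW
  have hy3 : (3 : ℝ) ≤ y := by exact_mod_cast hW.trans hWy
  have hlW1 : 1 ≤ Real.log W := by
    rw [Real.le_log_iff_exp_le (by linarith)]
    exact (lt_trans Real.exp_one_lt_d9 (by norm_num : (2.7182818286 : ℝ) < 3)).le.trans hW3
  have hlW : 0 < Real.log W := by linarith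
  have hly : 0 < Real.log y := Real.log_pos (by linarith)
  have hq : 0 < Real.log y / Real.log W := by positivity
  have hprime : ∀ l ∈ primesIn W y, l.Prime := fun l hl => (mem_filter.1 hl).2
  have h1 : ∑ n ∈ (Icc 1 y).filter (fun n => Rgh W n), fw n ≤
      ∏ l ∈ primesIn W y, (1 - dl l / ((l : ℝ) - 1))⁻¹ := by
    refine (sum_le_sum (g := cmul (fun l => dl l / ((l : ℝ) - 1))) ?_).trans
      ((sum_cmul_le (fun l => dl l / max ((l : ℝ) - 1) 1) ?_ ?_ (primesIn W y)
        ((Icc 1 y).filter (fun n => Rgh W n)) hprime ?_).trans_eq' ?_ |>.trans_eq ?_)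
    · intro n hn
      rw [mem_filter, mem_Icc] at hn
      exact fw_le_cmul n (by omega)
    · intro l
      have := dl_nonneg l
      positivity
    · intro l hl
      have h2 := dl_le l
      have h3 : (1 : ℝ) ≤ max ((l : ℝ) - 1) 1 := le_max_right _ _
      rw [div_lt_one (by linarith)]
      linarith
    · intro n hn
      rw [mem_filter, mem_Icc] at hn
      refine ⟨by omega, fun l hl hln => ?_⟩
      rw [primesIn, mem_filter, mem_Ioc]
      exact ⟨⟨hn.2 l hl hln, (Nat.le_of_dvd hn.1.1 hln).trans hn.1.2⟩, hl⟩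
    · refine sum_congr rfl fun n hn => ?_
      rw [mem_filter, mem_Icc] at hn
      rw [cmul_apply _ n (by omega), cmul_apply _ n (by omega)]
      refine prod_congr rfl fun l hl => ?_
      have hp : l.Prime := Nat.prime_of_mem_primeFactors hl
      have h2 : (2 : ℝ) ≤ l := by exact_mod_cast hp.two_le
      rw [max_eq_left (by linarith)]
    · refine prod_congr rfl fun l hl => ?_
      have hp : l.Prime := hprime l hl
      have h2 : (2 : ℝ) ≤ l := by exact_mod_cast hp.two_le
      rw [max_eq_left (by linarith)]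
  have h2 : ∏ l ∈ primesIn W y, (1 - dl l / ((l : ℝ) - 1))⁻¹ ≤
      Real.exp (∑ l ∈ primesIn W y, dl l / l + 3 / 2) := by
    have h3 : ∏ l ∈ primesIn W y, (1 - dl l / ((l : ℝ) - 1))⁻¹ ≤
        ∏ l ∈ primesIn W y, Real.exp (dl l / l + 3 / 2 * (1 / ((l : ℝ) * (l - 1)))) := by
      apply prod_le_prod
      · intro l hl
        have hp : l.Prime := hprime l hl
        have h2 : (2 : ℝ) ≤ l := by exact_mod_cast hp.two_le
        rw [inv_nonneg, sub_nonneg, div_le_one (by linarith)]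
        linarith [dl_le l]
      · intro l hl
        exact factor_le l (hprime l hl).two_le
    refine h3.trans ?_
    rw [← Real.exp_sum, sum_add_distrib, ← mul_sum]
    apply Real.exp_le_exp.2
    have := sum_tel (primesIn W y) (fun l hl => (hprime l hl).two_le)
    linarith
  have h3 := hR dl (5 / 16) C₀ (fun l => ⟨dl_nonneg l, by linarith [dl_le l]⟩) (by norm_num) hC0
    (fun y hy => hC₀ y hy) W y (by omega) hWy
  have h4 : (4 * C₀ + 4 * (5 / 16)) / Real.log W ≤ 4 * C₀ + 4 * (5 / 16) := by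
    rw [div_le_iff₀ hlW]
    nlinarith
  have h5 := (abs_le.1 h3).2
  refine (h1.trans h2).trans ?_
  rw [Real.rpow_def_of_pos hq, ← Real.exp_add]
  apply Real.exp_le_exp.2
  linarith

end Pool.Agent.Lib.MP_ba0fa5_ag.AA.H15
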