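import Pool.Agent.Lib.MP_ba0fa5_ag.AA.IfaceA

/-!
# WMERT: Mertens for the weights `dl`
-/

set_option autoImplicit false

namespace Pool.Agent.Lib.MP_ba0fa5_ag.AA.H15

open Finset Pool.Agent.Lib.MP_ba0fa5_ag
open scoped Classical

theorem dl_split (l : ℕ) (x : ℝ) : dl l * x =
    1 / 2 * (if l ≡ 3 [MOD 8] then x else 0) + 1 / 2 * (if l ≡ 7 [MOD 8] then x else 0) +
      1 / 4 * (if l ≡ 5 [MOD 8] then x else 0) := by
  have h : l % 4 = l % 8 % 4 := (Nat.mod_mod_of_dvd l (by norm_num)).symm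
  have h8 : l % 8 = 0 ∨ l % 8 = 1 ∨ l % 8 = 2 ∨ l % 8 = 3 ∨ l % 8 = 4 ∨ l % 8 = 5 ∨ l % 8 = 6 ∨
      l % 8 = 7 := by omega
  rcases h8 with h8 | h8 | h8 | h8 | h8 | h8 | h8 | h8 <;> simp [dl, Nat.ModEq, h, h8]

/-- **WMERT** -/
theorem wmert (hM : MertapStmt) : WmertStmt := by
  obtain ⟨C, hC⟩ := hM 8 (by norm_num)
  refine ⟨5 / 4 * C, fun y hy => ?_⟩
  have ht : Nat.totient 8 = 4 := by decide
  have e0 : primesIn 0 y = (Icc 1 y).filter Nat.Prime := by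
    unfold primesIn
    congr 1
  have e : ∀ a : ℕ, ∑ l ∈ (Icc 1 y).filter (fun l => l.Prime ∧ l ≡ a [MOD 8]), Real.log l / l =
      ∑ l ∈ primesIn 0 y, if l ≡ a [MOD 8] then Real.log l / l else 0 := by
    intro a
    rw [e0, ← Finset.sum_filter, Finset.filter_filter]
  have e1 : ∑ l ∈ primesIn 0 y, dl l * Real.log l / l =
      1 / 2 * ∑ l ∈ (Icc 1 y).filter (fun l => l.Prime ∧ l ≡ 3 [MOD 8]), Real.log l / l +
      1 / 2 * ∑ l ∈ (Icc 1 y).filter (fun l => l.Prime ∧ l ≡ 7 [MOD 8]), Real.log l / l +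
      1 / 4 * ∑ l ∈ (Icc 1 y).filter (fun l => l.Prime ∧ l ≡ 5 [MOD 8]), Real.log l / l := by
    rw [e 3, e 7, e 5, mul_sum, mul_sum, mul_sum, ← sum_add_distrib, ← sum_add_distrib]
    refine sum_congr rfl fun l _ => ?_
    rw [mul_div_assoc]
    exact dl_split l _
  have h3 := abs_le.1 (hC 3 y (by decide) hy)
  have h7 := abs_le.1 (hC 7 y (by decide) hy)
  have h5 := abs_le.1 (hC 5 y (by decide) hy)
  rw [ht] at h3 h7 h5
  push_cast at h3 h7 h5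
  rw [e1, abs_le]
  constructor
  · linarith [h3.1, h7.1, h5.1]
  · linarith [h3.2, h7.2, h5.2]

end Pool.Agent.Lib.MP_ba0fa5_ag.AA.H15
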